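import Pool.Agent.H1.SP.Kos

/-!
# MP_6e067e_ag: containments `I^(t(m+N-1)) ⊆ M^(t(N-1)) (I^(m))^t` and generator degrees

Over every field, in every dimension `N ≥ 2` and for every finite set of points: if the nonzero
forms of `I^(m)` have degree `≥ a` and `I^(m)` is generated by forms of degree `≤ b`, then
`I^(t(m+N-1)) ⊆ M^(t(a+N-1-b)) (I^(m))^t` for all `t`.  For `b = a` this is Q1 (for this set of
points, this `m` and all `t`).  If the points impose independent conditions on forms of degree `e`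
then `I` is generated in degrees `≤ e + 1`; so when moreover no form of degree `e` vanishes at all
of them, `I^(tN) ⊆ M^(t(N-1)) I^t` for all `t`.
-/

set_option autoImplicit false

namespace Pool.Agent.Results.MP_6e067e_ag.GeneratorDegrees

open MvPolynomial

/-- The homogeneous ideal of the point of `P^n` with homogeneous coordinates `q`. -/
noncomputable def pointIdeal {K : Type*} [Field K] {n : ℕ} (q : Fin (n + 1) → K) :
    Ideal (MvPolynomial (Fin (n + 1)) K) :=
  Ideal.span (Set.range (fun jl : Fin (n + 1) × Fin (n + 1) =>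
    (X jl.1 * C (q jl.2) - X jl.2 * C (q jl.1) : MvPolynomial (Fin (n + 1)) K)))

/-- The irrelevant ideal `M = (x_0, ..., x_n)`. -/
noncomputable def maxIdeal (K : Type*) [Field K] (n : ℕ) :
    Ideal (MvPolynomial (Fin (n + 1)) K) :=
  Ideal.span (Set.range (fun j : Fin (n + 1) => (X j : MvPolynomial (Fin (n + 1)) K)))

/-- The symbolic power `I^(m)` of the ideal of the points. -/
noncomputable def symPow {K : Type*} [Field K] {n s : ℕ} (P : Fin s → Fin (n + 1) → K)
    (m : ℕ) : Ideal (MvPolynomial (Fin (n + 1)) K) :=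
  ⨅ i : Fin s, pointIdeal (P i) ^ m

/-- Every nonzero form in `J` has degree at least `a`. -/
def MinDegree {K : Type*} [Field K] {n : ℕ} (J : Ideal (MvPolynomial (Fin (n + 1)) K))
    (a : ℕ) : Prop :=
  ∀ f ∈ J, f ≠ 0 → ∀ l : ℕ, f.IsHomogeneous l → a ≤ l

/-- `J` is generated by forms of degree at most `b`. -/
def GeneratedUpTo {K : Type*} [Field K] {n : ℕ} (J : Ideal (MvPolynomial (Fin (n + 1)) K))
    (b : ℕ) : Prop :=
  J = Ideal.span {f | f ∈ J ∧ ∃ l ≤ b, f.IsHomogeneous l}

/-- The points impose independent conditions on the forms of degree `e`: each of them is separated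
from the others by such a form. -/
def Separated {K : Type*} [Field K] {n s : ℕ} (P : Fin s → Fin (n + 1) → K) (e : ℕ) : Prop :=
  ∀ i, ∃ f : MvPolynomial (Fin (n + 1)) K, f.IsHomogeneous e ∧ eval (P i) f ≠ 0 ∧
    ∀ j, j ≠ i → eval (P j) f = 0

theorem result (K : Type*) [Field K] (n : ℕ) (hn : 2 ≤ n) (s : ℕ) (hs : 0 < s)
    (P : Fin s → Fin (n + 1) → K) (hP : ∀ i, P i ≠ 0) :
    (∀ m t a b : ℕ, 0 < m → 0 < t → MinDegree (symPow P m) a → GeneratedUpTo (symPow P m) b →
      symPow P (t * (m + n - 1)) ≤ maxIdeal K n ^ (t * (a + n - 1 - b)) * symPow P m ^ t) ∧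
    (∀ m t a : ℕ, 0 < m → 0 < t → MinDegree (symPow P m) a → GeneratedUpTo (symPow P m) a →
      symPow P (t * (m + n - 1)) ≤ maxIdeal K n ^ (t * (n - 1)) * symPow P m ^ t) ∧
    (∀ t a e : ℕ, 0 < t → MinDegree (symPow P 1) a → Separated P e →
      symPow P (t * n) ≤ maxIdeal K n ^ (t * (a + n - 2 - e)) * symPow P 1 ^ t) ∧
    (∀ t e : ℕ, 0 < t → MinDegree (symPow P 1) (e + 1) → Separated P e →
      symPow P (t * n) ≤ maxIdeal K n ^ (t * (n - 1)) * symPow P 1 ^ t) := by
  have h1 : ∀ m t a b : ℕ, 0 < m → 0 < t → MinDegree (symPow P m) a →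
      GeneratedUpTo (symPow P m) b →
      symPow P (t * (m + n - 1)) ≤ maxIdeal K n ^ (t * (a + n - 1 - b)) * symPow P m ^ t := by
    intro m t a b hm ht ha hb
    exact Pool.Agent.H1.SP.gen hn hs ht hm P hP ha (le_of_eq hb)
  have h3 : ∀ t a e : ℕ, 0 < t → MinDegree (symPow P 1) a → Separated P e →
      symPow P (t * n) ≤ maxIdeal K n ^ (t * (a + n - 2 - e)) * symPow P 1 ^ t := by
    intro t a e ht ha he
    have hg : GeneratedUpTo (symPow P 1) (e + 1) := by
      apply le_antisymm
      · exact Pool.Agent.H1.SP.gen_of_sep P hP he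
      · rw [Ideal.span_le]
        rintro f ⟨hf, -⟩
        exact hf
    have := h1 1 t a (e + 1) one_pos ht ha hg
    have e1 : 1 + n - 1 = n := by omega
    have e2 : a + n - 1 - (e + 1) = a + n - 2 - e := by omega
    rwa [e1, e2] at this
  refine ⟨h1, ?_, h3, ?_⟩
  · intro m t a hm ht ha hb
    have := h1 m t a a hm ht ha hb
    have e1 : a + n - 1 - a = n - 1 := by omega
    rwa [e1] at this
  · intro t e ht ha he
    have := h3 t (e + 1) e ht ha he
    have e1 : e + 1 + n - 2 - e = n - 1 := by omega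
    rwa [e1] at this

end Pool.Agent.Results.MP_6e067e_ag.GeneratorDegrees
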